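import Pool.Agent.Lib.MP_dabcc9_gt.McA
import Pool.Agent.Lib.MP_dabcc9_gt.Stmt

/-! Balls with finitely many non overlapping caps of different radii cut off: definitions. -/

open MeasureTheory Metric Set Pool.Agent.Lib.MP_dabcc9_gt

namespace Pool.Agent.Lib.MP_dabcc9_gtU

noncomputable section

/-- The unit ball with the caps `{<x, n i> > c i}` cut off. -/
def ucap {N : ℕ} (n : Fin N → E3) (c : Fin N → ℝ) : Set E3 :=
  {x | ‖x‖ ≤ 1 ∧ ∀ i, inner ℝ x (n i) ≤ c i}

/-- Unit vectors whose caps of angular radii `arccos (c i)` do not overlap. -/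
def SepU {N : ℕ} (n : Fin N → E3) (c : Fin N → ℝ) : Prop :=
  (∀ i, ‖n i‖ = 1) ∧ (∀ i, 0 < c i ∧ c i < 1) ∧
    ∀ i j, i ≠ j → Real.arccos (c i) + Real.arccos (c j) ≤ InnerProductGeometry.angle (n i) (n j)

/-- The caps with centres `n i` and angular radii `t i` (between `0` and `π/2`) do not overlap; they may touch. -/
def NoOverlap {N : ℕ} (n : Fin N → E3) (t : Fin N → ℝ) : Prop :=
  (∀ i, ‖n i‖ = 1 ∧ 0 < t i ∧ t i < Real.pi / 2) ∧
    ∀ i j, i ≠ j → t i + t j ≤ InnerProductGeometry.angle (n i) (n j)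

/-- The unit ball with the caps with centres `n i` and angular radii `t i` cut off. -/
def TruncatedBall {N : ℕ} (n : Fin N → E3) (t : Fin N → ℝ) : Set E3 :=
  {x | ‖x‖ ≤ 1 ∧ ∀ i, inner ℝ x (n i) ≤ Real.cos (t i)}

/-- Loss of surface area, divided by `4 π`, of one cap. -/
def sA (t : ℝ) : ℝ := (1 - Real.cos t) ^ 2 / 4

/-- Loss of volume, divided by `4 π / 3`, of one cap. -/
def vA (t : ℝ) : ℝ := (1 - Real.cos t) ^ 2 * (2 + Real.cos t) / 4

/-- Loss of the mean of the support function of one cap. -/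
def mA (t : ℝ) : ℝ := (1 - Real.cos t) / 2 - t * Real.sin t / 4

end

end Pool.Agent.Lib.MP_dabcc9_gtU
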