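import Pool.Agent.Lib.MP_dabcc9_gtU.UDefs

/-!
LEAF UI2. Small caps. Put `T ρ = (48 ρ)^(1/4)` (`Real.rpow`), so `(T ρ)^4 = 48 ρ` for `ρ ≥ 0`, `T 0 = 0`, `T` is continuous.
`lim_sA`: `sA T / T^4 → 1/16` as `T → 0+`: `|1 - cos T - T²/2| ≤ 5/96 T⁴` for `|T| ≤ 1` (`Real.cos_bound`), or
`(1 - cos T)/T² → 1/2`, square it. `lim_vA`: `vA = sA (2 + cos T)`, limit `3/16`.
`lim_mA`: `mA T / T^4 → 1/48`: needs the fourth order: `cos T = 1 - T²/2 + T⁴/24 + O(T⁶)`, `T sin T = T² - T⁴/6 + O(T⁶)`, so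
`mA = (T²/2 - T⁴/24)/2 - (T² - T⁴/6)/4 + O(T⁶) = T⁴/48 + O(T⁶)`; easiest: l'Hopital
(`HasDerivAt.lhopital_zero_nhdsGT`): `mA' = (sin T - T cos T)/4`, `(T^4)' = 4 T³`, and once more: `(T sin T)/4` over `12 T²` → `1/48`
(`sin T / T → 1`).
`deriv_sA`: the slope at `0` is `sA (T ρ) / ρ = 48 sA (T ρ)/(T ρ)^4`, and `T ρ → 0+`.
-/

open Set Filter Topology

namespace Pool.Agent.Lib.MP_dabcc9_gtU

/-- Angular radius of the cap which loses `ρ` of the mean of the support function, to first order. -/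
noncomputable def capT (ρ : ℝ) : ℝ := (48 * ρ) ^ (1 / 4 : ℝ)

theorem capT_pos {ρ : ℝ} (h : 0 < ρ) : 0 < capT ρ :=
  Real.rpow_pos_of_pos (by positivity) _

theorem capT_zero : capT 0 = 0 := by
  unfold capT
  rw [mul_zero]
  exact Real.zero_rpow (by norm_num)

private theorem UI2_capT_pow {ρ : ℝ} (h : 0 ≤ ρ) : capT ρ ^ 4 = 48 * ρ := by
  unfold capT
  rw [← Real.rpow_natCast, ← Real.rpow_mul (by positivity)]
  norm_num

/-- `capT ρ < T₀` for small `ρ`. -/
theorem capT_small {T₀ : ℝ} (h : 0 < T₀) : ∃ δ : ℝ, 0 < δ ∧ ∀ ρ : ℝ, 0 < ρ → ρ < δ → capT ρ < T₀ := by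
  refine ⟨T₀ ^ 4 / 48, by positivity, fun ρ h0 h1 => ?_⟩
  by_contra hc
  have h2 : T₀ ≤ capT ρ := not_lt.mp hc
  have h3 : T₀ ^ 4 ≤ capT ρ ^ 4 := pow_le_pow_left₀ h.le h2 4
  rw [UI2_capT_pow h0.le] at h3
  linarith

private theorem UI2_sinc : Tendsto (fun T : ℝ => Real.sinc T) (𝓝[>] 0) (𝓝 1) := by
  have h := (Real.continuous_sinc.tendsto 0).mono_left (nhdsWithin_le_nhds (s := Ioi (0 : ℝ)))
  rwa [Real.sinc_zero] at h

private theorem UI2_sinc_half : Tendsto (fun T : ℝ => Real.sinc (T / 2)) (𝓝[>] 0) (𝓝 1) := by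
  have hc : Continuous (fun T : ℝ => Real.sinc (T / 2)) :=
    Real.continuous_sinc.comp (continuous_id.div_const 2)
  have h := (hc.tendsto 0).mono_left (nhdsWithin_le_nhds (s := Ioi (0 : ℝ)))
  simpa [Real.sinc_zero] using h

private theorem UI2_cos (T : ℝ) (hT : 0 < T) : (1 - Real.cos T) / T ^ 2 = Real.sinc (T / 2) ^ 2 / 2 := by
  rw [Real.sinc_of_ne_zero (by positivity)]
  have h1 : Real.cos T = 1 - 2 * Real.sin (T / 2) ^ 2 := by
    have h2 := Real.cos_sq (T / 2)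
    have h3 := Real.sin_sq (T / 2)
    have h4 : 2 * (T / 2) = T := by ring
    rw [h4] at h2
    rw [h3, h2]
    ring
  rw [h1]
  field_simp
  ring

theorem lim_sA : Tendsto (fun T => sA T / T ^ 4) (𝓝[>] 0) (𝓝 (1 / 16)) := by
  have h : Tendsto (fun T : ℝ => (Real.sinc (T / 2) ^ 2 / 2) ^ 2 / 4) (𝓝[>] 0)
      (𝓝 (((1 : ℝ) ^ 2 / 2) ^ 2 / 4)) :=
    (((UI2_sinc_half.pow 2).div_const 2).pow 2).div_const 4
  have h' : ((1 : ℝ) ^ 2 / 2) ^ 2 / 4 = 1 / 16 := by norm_num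
  rw [h'] at h
  refine h.congr' ?_
  filter_upwards [self_mem_nhdsWithin] with T hT
  have hT' : (0 : ℝ) < T := hT
  rw [← UI2_cos T hT']
  unfold sA
  field_simp

theorem lim_vA : Tendsto (fun T => vA T / T ^ 4) (𝓝[>] 0) (𝓝 (3 / 16)) := by
  have hc : Tendsto (fun T : ℝ => 2 + Real.cos T) (𝓝[>] 0) (𝓝 3) := by
    have h1 : Continuous (fun T : ℝ => 2 + Real.cos T) := continuous_const.add Real.continuous_cos
    have h := (h1.tendsto 0).mono_left (nhdsWithin_le_nhds (s := Ioi (0 : ℝ)))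
    have h2 : (2 : ℝ) + Real.cos 0 = 3 := by rw [Real.cos_zero]; norm_num
    rwa [h2] at h
  have h := lim_sA.mul hc
  have h' : (1 : ℝ) / 16 * 3 = 3 / 16 := by norm_num
  rw [h'] at h
  refine h.congr' ?_
  filter_upwards with T
  unfold sA vA
  ring

private theorem UI2_dm (T : ℝ) : HasDerivAt mA ((Real.sin T - T * Real.cos T) / 4) T := by
  have h1 : HasDerivAt (fun t : ℝ => (1 - Real.cos t) / 2) ((0 - -Real.sin T) / 2) T :=
    ((hasDerivAt_const T (1 : ℝ)).sub (Real.hasDerivAt_cos T)).div_const 2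
  have h2 : HasDerivAt (fun t : ℝ => t * Real.sin t / 4) ((1 * Real.sin T + T * Real.cos T) / 4) T :=
    ((hasDerivAt_id T).mul (Real.hasDerivAt_sin T)).div_const 4
  have h3 := h1.sub h2
  have e : (0 - -Real.sin T) / 2 - (1 * Real.sin T + T * Real.cos T) / 4 =
      (Real.sin T - T * Real.cos T) / 4 := by ring
  rw [e] at h3
  exact h3

private theorem UI2_dm2 (T : ℝ) :
    HasDerivAt (fun t : ℝ => (Real.sin t - t * Real.cos t) / 4) (T * Real.sin T / 4) T := by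
  have h1 : HasDerivAt (fun t : ℝ => t * Real.cos t) (1 * Real.cos T + T * -Real.sin T) T :=
    (hasDerivAt_id T).mul (Real.hasDerivAt_cos T)
  have h2 := ((Real.hasDerivAt_sin T).sub h1).div_const 4
  have e : (Real.cos T - (1 * Real.cos T + T * -Real.sin T)) / 4 = T * Real.sin T / 4 := by ring
  rw [e] at h2
  exact h2

theorem lim_mA : Tendsto (fun T => mA T / T ^ 4) (𝓝[>] 0) (𝓝 (1 / 48)) := by
  have hin : Tendsto (fun T : ℝ => (T * Real.sin T / 4) / (12 * T ^ 2)) (𝓝[>] 0) (𝓝 (1 / 48)) := by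
    have h := UI2_sinc.div_const 48
    refine h.congr' ?_
    filter_upwards [self_mem_nhdsWithin] with T hT
    have hT' : (0 : ℝ) < T := hT
    rw [Real.sinc_of_ne_zero hT'.ne']
    field_simp
    ring
  have hmid : Tendsto (fun T : ℝ => ((Real.sin T - T * Real.cos T) / 4) / (4 * T ^ 3)) (𝓝[>] 0)
      (𝓝 (1 / 48)) := by
    refine HasDerivAt.lhopital_zero_nhdsGT (f' := fun T => T * Real.sin T / 4)
      (g' := fun T => 12 * T ^ 2) ?_ ?_ ?_ ?_ ?_ hin
    · exact Eventually.of_forall (fun T => UI2_dm2 T)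
    · refine Eventually.of_forall (fun T => ?_)
      have h := (hasDerivAt_pow 3 T).const_mul 4
      have e : (4 : ℝ) * (((3 : ℕ) : ℝ) * T ^ (3 - 1)) = 12 * T ^ 2 := by
        norm_num
        ring
      rw [e] at h
      exact h
    · filter_upwards [self_mem_nhdsWithin] with T hT
      have hT' : (0 : ℝ) < T := hT
      positivity
    · have hc : Continuous (fun t : ℝ => (Real.sin t - t * Real.cos t) / 4) := by fun_prop
      have h := (hc.tendsto 0).mono_left (nhdsWithin_le_nhds (s := Ioi (0 : ℝ)))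
      simpa using h
    · have hc : Continuous (fun t : ℝ => 4 * t ^ 3) := by fun_prop
      have h := (hc.tendsto 0).mono_left (nhdsWithin_le_nhds (s := Ioi (0 : ℝ)))
      simpa using h
  refine HasDerivAt.lhopital_zero_nhdsGT (f' := fun T => (Real.sin T - T * Real.cos T) / 4)
    (g' := fun T => 4 * T ^ 3) ?_ ?_ ?_ ?_ ?_ hmid
  · exact Eventually.of_forall (fun T => UI2_dm T)
  · refine Eventually.of_forall (fun T => ?_)
    have h := hasDerivAt_pow 4 T
    have e : (((4 : ℕ) : ℝ) * T ^ (4 - 1)) = 4 * T ^ 3 := by norm_num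
    rw [e] at h
    exact h
  · filter_upwards [self_mem_nhdsWithin] with T hT
    have hT' : (0 : ℝ) < T := hT
    positivity
  · have hc : Continuous mA := by unfold mA; fun_prop
    have h := (hc.tendsto 0).mono_left (nhdsWithin_le_nhds (s := Ioi (0 : ℝ)))
    have e : mA 0 = 0 := by simp [mA]
    rwa [e] at h
  · have hc : Continuous (fun t : ℝ => t ^ 4) := by fun_prop
    have h := (hc.tendsto 0).mono_left (nhdsWithin_le_nhds (s := Ioi (0 : ℝ)))
    simpa using h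

theorem deriv_capT {f : ℝ → ℝ} {l : ℝ} (h0 : f 0 = 0)
    (h : Tendsto (fun T => f T / T ^ 4) (𝓝[>] 0) (𝓝 l)) :
    HasDerivWithinAt (fun ρ => f (capT ρ)) (48 * l) (Ici 0) 0 := by
  have e : Ici (0 : ℝ) \ {0} = Ioi 0 := by
    ext x
    simp only [Set.mem_sdiff, mem_Ici, mem_singleton_iff, mem_Ioi]
    exact ⟨fun h => lt_of_le_of_ne h.1 (Ne.symm h.2), fun h => ⟨h.le, h.ne'⟩⟩
  rw [hasDerivWithinAt_iff_tendsto_slope, e]
  have ht : Tendsto capT (𝓝[>] 0) (𝓝[>] 0) := by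
    refine tendsto_nhdsWithin_iff.2 ⟨?_, ?_⟩
    · have hc : Continuous capT := by
        unfold capT
        exact (continuous_const.mul continuous_id).rpow_const (fun _ => Or.inr (by norm_num))
      have h1 := (hc.tendsto 0).mono_left (nhdsWithin_le_nhds (s := Ioi (0 : ℝ)))
      rwa [capT_zero] at h1
    · filter_upwards [self_mem_nhdsWithin] with ρ hρ
      exact capT_pos hρ
  have h1 := (h.comp ht).const_mul 48
  refine h1.congr' ?_
  filter_upwards [self_mem_nhdsWithin] with ρ hρ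
  have hρ' : (0 : ℝ) < ρ := hρ
  rw [slope_def_field]
  simp only [Function.comp]
  have hne : ρ ≠ 0 := hρ'.ne'
  rw [capT_zero, h0, UI2_capT_pow hρ'.le, sub_zero, sub_zero]
  field_simp

end Pool.Agent.Lib.MP_dabcc9_gtU
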