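import Mathlib

/-!
LEAF UJ1 (Mathlib only). Derivatives along a path. `p`, `q`, `r` are differentiable from the right at `0` and vanish there; `s`, `m`, `v` are
differentiable at `θ`. The path `ρ ↦ (θ - A ρ, ρ)`. Chain rule, quotient rule (`HasDerivWithinAt.div`, `.pow`, `HasDerivAt.comp_hasDerivWithinAt`).
`small_neg`: a function with negative right derivative at `0` is less than its value at `0` on some `(0, δ)` (the slope is eventually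
negative: `hasDerivWithinAt_iff_tendsto_slope'` or `hasDerivWithinAt_Ioi_iff_Ici`).
-/

open Set Filter Topology

namespace Pool.Agent.Lib.MP_dabcc9_gtU

theorem path_deriv {S θ A s' p' : ℝ} {s p : ℝ → ℝ} (hs : HasDerivAt s s' θ)
    (hp : HasDerivWithinAt p p' (Ici 0) 0) :
    HasDerivWithinAt (fun ρ => S + (s θ - s (θ - A * ρ)) - p ρ) (A * s' - p') (Ici 0) 0 := by
  have h1 : HasDerivAt (fun ρ : ℝ => θ - A * ρ) (-A) 0 := by
    have h2 := ((hasDerivAt_id (0 : ℝ)).const_mul A).const_sub θ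
    simpa using h2
  have h3 : HasDerivAt s s' (θ - A * 0) := by
    rw [mul_zero, sub_zero]
    exact hs
  have h4 : HasDerivAt (fun ρ : ℝ => s (θ - A * ρ)) (s' * -A) 0 :=
    HasDerivAt.comp (0 : ℝ) h3 h1
  have h5 : HasDerivWithinAt (fun ρ : ℝ => S + (s θ - s (θ - A * ρ)) - p ρ)
      (-(s' * -A) - p') (Ici 0) 0 :=
    (((h4.const_sub (s θ)).const_add S).hasDerivWithinAt).sub hp
  have h6 : -(s' * -A) - p' = A * s' - p' := by ring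
  rw [← h6]
  exact h5

theorem quot2_deriv {a b : ℝ → ℝ} {a0 b0 a' b' : ℝ} (ha : HasDerivWithinAt a a' (Ici 0) 0)
    (hb : HasDerivWithinAt b b' (Ici 0) 0) (ea : a 0 = a0) (eb : b 0 = b0) (h0 : 0 < b0) :
    HasDerivWithinAt (fun ρ => a ρ / b ρ ^ 2) ((a' * b0 - 2 * a0 * b') / b0 ^ 3) (Ici 0) 0 := by
  have hb0 : b 0 ^ 2 ≠ 0 := by
    rw [eb]
    positivity
  have h1 : HasDerivWithinAt (fun ρ => b ρ ^ 2) (2 * b 0 ^ (2 - 1) * b') (Ici 0) 0 := by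
    have h := hb.fun_pow 2
    simpa using h
  have h2 := ha.fun_div h1 hb0
  have h3 : (a' * b 0 ^ 2 - a 0 * (2 * b 0 ^ (2 - 1) * b')) / (b 0 ^ 2) ^ 2 =
      (a' * b0 - 2 * a0 * b') / b0 ^ 3 := by
    rw [ea, eb]
    have hne : b0 ≠ 0 := h0.ne'
    field_simp
    ring
  rw [← h3]
  exact h2

theorem quot3_deriv {a b : ℝ → ℝ} {a0 b0 a' b' : ℝ} (ha : HasDerivWithinAt a a' (Ici 0) 0)
    (hb : HasDerivWithinAt b b' (Ici 0) 0) (ea : a 0 = a0) (eb : b 0 = b0) (h0 : 0 < b0) :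
    HasDerivWithinAt (fun ρ => a ρ / b ρ ^ 3) ((a' * b0 - 3 * a0 * b') / b0 ^ 4) (Ici 0) 0 := by
  have hb0 : b 0 ^ 3 ≠ 0 := by
    rw [eb]
    positivity
  have h1 : HasDerivWithinAt (fun ρ => b ρ ^ 3) (3 * b 0 ^ (3 - 1) * b') (Ici 0) 0 := by
    have h := hb.fun_pow 3
    simpa using h
  have h2 := ha.fun_div h1 hb0
  have h3 : (a' * b 0 ^ 3 - a 0 * (3 * b 0 ^ (3 - 1) * b')) / (b 0 ^ 3) ^ 2 =
      (a' * b0 - 3 * a0 * b') / b0 ^ 4 := by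
    rw [ea, eb]
    have hne : b0 ≠ 0 := h0.ne'
    field_simp
    ring
  rw [← h3]
  exact h2

theorem small_neg {f : ℝ → ℝ} {d : ℝ} (hf : HasDerivWithinAt f d (Ici 0) 0) (hd : d < 0) :
    ∃ δ : ℝ, 0 < δ ∧ ∀ ρ : ℝ, 0 < ρ → ρ < δ → f ρ < f 0 := by
  have h1 : HasDerivWithinAt f d (Ioi 0) 0 := hf.mono Ioi_subset_Ici_self
  have h2 : Tendsto (slope f 0) (𝓝[>] 0) (𝓝 d) := by
    have h3 := (hasDerivWithinAt_iff_tendsto_slope' (s := Ioi (0 : ℝ)) (by simp)).mp h1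
    exact h3
  have h4 : ∀ᶠ ρ in 𝓝[>] (0 : ℝ), slope f 0 ρ < 0 := h2.eventually_lt_const hd
  obtain ⟨δ, hδ, h5⟩ := (mem_nhdsGT_iff_exists_Ioo_subset (a := (0 : ℝ))).mp h4
  refine ⟨δ, hδ, fun ρ h6 h7 => ?_⟩
  have h8 : slope f 0 ρ < 0 := h5 ⟨h6, h7⟩
  rw [slope_def_field, sub_zero, div_lt_iff₀ h6, zero_mul] at h8
  linarith

theorem small_pos {f : ℝ → ℝ} {d : ℝ} (hf : HasDerivWithinAt f d (Ici 0) 0) (hd : 0 < d) :
    ∃ δ : ℝ, 0 < δ ∧ ∀ ρ : ℝ, 0 < ρ → ρ < δ → f 0 < f ρ := by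
  obtain ⟨δ, hδ, h1⟩ := small_neg (f := fun x => -f x) hf.neg (by linarith)
  refine ⟨δ, hδ, fun ρ h2 h3 => ?_⟩
  have h4 : -f ρ < -f 0 := h1 ρ h2 h3
  linarith

/-- A function positive at `0` and differentiable there from the right stays positive for a while. -/
theorem stay_pos {f : ℝ → ℝ} {d : ℝ} (hf : HasDerivWithinAt f d (Ici 0) 0) (h0 : 0 < f 0) :
    ∃ δ : ℝ, 0 < δ ∧ ∀ ρ : ℝ, 0 < ρ → ρ < δ → 0 < f ρ := by
  have h1 : Tendsto f (𝓝[>] 0) (𝓝 (f 0)) :=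
    (hf.continuousWithinAt.mono Ioi_subset_Ici_self)
  have h4 : ∀ᶠ ρ in 𝓝[>] (0 : ℝ), 0 < f ρ := h1.eventually_const_lt h0
  obtain ⟨δ, hδ, h5⟩ := (mem_nhdsGT_iff_exists_Ioo_subset (a := (0 : ℝ))).mp h4
  exact ⟨δ, hδ, fun ρ h6 h7 => h5 ⟨h6, h7⟩⟩

end Pool.Agent.Lib.MP_dabcc9_gtU
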